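import Mathlib
import Pool.Agent.Q273.QP.Stm

/-! Project QP of helper273, job SUMB: a sum over the middle coefficients (helper38). -/

set_option autoImplicit false

namespace Pool.Agent.Q38.QPS

open Finset

/-- the number of `s`-factored numbers up to `Y` -/
lemma card_smooth (s : Finset ℕ) (η : ℝ) (hη : 0 < η) : ∃ C : ℝ, 0 < C ∧ ∀ Y : ℕ, 1 ≤ Y →
    (((Icc 1 Y).filter (· ∈ Nat.factoredNumbers s)).card : ℝ) ≤ C * (Y : ℝ) ^ η := by
  let f : ℕ →* ℝ :=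
    { toFun := fun n => (n : ℝ) ^ (-η)
      map_one' := by rw [Nat.cast_one, Real.one_rpow]
      map_mul' := fun m n => by
        rw [Nat.cast_mul, Real.mul_rpow (Nat.cast_nonneg _) (Nat.cast_nonneg _)] }
  have hf : ∀ n : ℕ, f n = (n : ℝ) ^ (-η) := fun n => rfl
  have hf0 : ∀ n : ℕ, 0 ≤ f n := fun n => Real.rpow_nonneg (Nat.cast_nonneg _) _
  have hfp : ∀ {p : ℕ}, p.Prime → ‖f p‖ < 1 := by
    intro p hp
    rw [hf, Real.norm_of_nonneg (Real.rpow_nonneg (Nat.cast_nonneg _) _)]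
    exact Real.rpow_lt_one_of_one_lt_of_neg (by exact_mod_cast hp.one_lt) (by linarith)
  have hs := (EulerProduct.summable_and_hasSum_factoredNumbers_prod_filter_prime_geometric hfp s).1
  obtain ⟨C, hC⟩ : ∃ C : ℝ, C = ∑' m : Nat.factoredNumbers s, ‖f m‖ := ⟨_, rfl⟩
  have hC0 : 0 ≤ C := by
    rw [hC]
    exact tsum_nonneg fun _ => norm_nonneg _
  refine ⟨C + 1, by linarith, fun Y hY => ?_⟩
  have hY0 : (0 : ℝ) < Y := by exact_mod_cast hY
  have hYη : 0 < (Y : ℝ) ^ η := Real.rpow_pos_of_pos hY0 _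
  have h1 : ∀ n ∈ (Icc 1 Y).filter (· ∈ Nat.factoredNumbers s), (1 : ℝ) ≤ (Y : ℝ) ^ η * f n := by
    intro n hn
    rw [mem_filter, mem_Icc] at hn
    have hn0 : (0 : ℝ) < n := by exact_mod_cast hn.1.1
    have hnY : (n : ℝ) ≤ Y := by exact_mod_cast hn.1.2
    rw [hf, Real.rpow_neg hn0.le, ← div_eq_mul_inv, le_div_iff₀ (Real.rpow_pos_of_pos hn0 _), one_mul]
    exact Real.rpow_le_rpow hn0.le hnY hη.le
  have h2 : (((Icc 1 Y).filter (· ∈ Nat.factoredNumbers s)).card : ℝ) ≤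
      ∑ n ∈ (Icc 1 Y).filter (· ∈ Nat.factoredNumbers s), (Y : ℝ) ^ η * f n := by
    have h3 := Finset.card_nsmul_le_sum ((Icc 1 Y).filter (· ∈ Nat.factoredNumbers s))
      (fun n => (Y : ℝ) ^ η * f n) 1 h1
    rwa [nsmul_eq_mul, mul_one] at h3
  refine h2.trans ?_
  rw [← mul_sum, mul_comm]
  apply mul_le_mul_of_nonneg_right _ hYη.le
  have h4 : ∑ n ∈ (Icc 1 Y).filter (· ∈ Nat.factoredNumbers s), f n =
      ∑ m ∈ ((Icc 1 Y).filter (· ∈ Nat.factoredNumbers s)).subtype (· ∈ Nat.factoredNumbers s), ‖f m‖ := by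
    rw [Finset.sum_subtype_of_mem (f := fun n : ℕ => ‖f n‖) (fun x hx => (mem_filter.1 hx).2)]
    exact Finset.sum_congr rfl fun n _ => (Real.norm_of_nonneg (hf0 n)).symm
  rw [h4]
  have h5 := hs.sum_le_tsum (((Icc 1 Y).filter (· ∈ Nat.factoredNumbers s)).subtype
    (· ∈ Nat.factoredNumbers s)) (fun _ _ => norm_nonneg _)
  rw [← hC] at h5
  linarith

/-- a sum over separated points -/
lemma sum_sep {ι : Type*} (A : Finset ι) (x t : ι → ℝ) (L : ℝ) (K : ℕ) (hL : 1 ≤ L)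
    (hx0 : ∀ b ∈ A, 0 ≤ x b) (hxK : ∀ b ∈ A, x b ≤ K) (ht : ∀ b ∈ A, t b ≤ 1)
    (htx : ∀ b ∈ A, t b * x b ≤ L) (hsep : ∀ b ∈ A, ∀ b' ∈ A, b ≠ b' → L ≤ |x b - x b'|) :
    ∑ b ∈ A, t b ≤ 1 + ∑ k ∈ Icc 1 K, (1 : ℝ) / k := by
  classical
  have hL0 : 0 < L := by linarith
  have hinj : Set.InjOn (fun b => ⌊x b / L⌋₊) (A : Set ι) := by
    intro b hb b' hb' h
    by_contra hne
    have h1 := hsep b hb b' hb' hne
    have e1 := Nat.floor_le (div_nonneg (hx0 b hb) hL0.le)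
    have e2 := Nat.lt_floor_add_one (x b / L)
    have e3 := Nat.floor_le (div_nonneg (hx0 b' hb') hL0.le)
    have e4 := Nat.lt_floor_add_one (x b' / L)
    simp only at h
    rw [h] at e1 e2
    rw [le_div_iff₀ hL0] at e1 e3
    rw [div_lt_iff₀ hL0] at e2 e4
    have h2 : |x b - x b'| < L := by
      rw [abs_lt]
      constructor <;> linarith
    linarith
  obtain ⟨u, hu⟩ : ∃ u : ℕ → ℝ, u = fun k : ℕ => if k = 0 then (1 : ℝ) else (1 : ℝ) / (k : ℝ) := ⟨_, rfl⟩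
  have hu0 : ∀ k, 0 ≤ u k := by
    intro k
    rw [hu]
    dsimp only
    split_ifs
    · norm_num
    · positivity
  have h1 : ∀ b ∈ A, t b ≤ u ⌊x b / L⌋₊ := by
    intro b hb
    rw [hu]
    dsimp only
    split_ifs with h
    · exact ht b hb
    · have hk : (0 : ℝ) < ⌊x b / L⌋₊ := by exact_mod_cast Nat.pos_of_ne_zero h
      have e1 := Nat.floor_le (div_nonneg (hx0 b hb) hL0.le)
      rw [le_div_iff₀ hL0] at e1
      rw [le_div_iff₀ hk]
      rcases le_or_gt (t b) 0 with h2 | h2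
      · nlinarith
      · have h3 := htx b hb
        have h4 : t b * (⌊x b / L⌋₊ * L) ≤ t b * x b := mul_le_mul_of_nonneg_left e1 h2.le
        have h5 : (t b * ⌊x b / L⌋₊) * L ≤ 1 * L := by linarith
        exact le_of_mul_le_mul_right h5 hL0
  calc ∑ b ∈ A, t b ≤ ∑ b ∈ A, u ⌊x b / L⌋₊ := sum_le_sum h1
    _ = ∑ k ∈ A.image (fun b => ⌊x b / L⌋₊), u k := (sum_image hinj).symm
    _ ≤ ∑ k ∈ range (K + 1), u k := by
        apply sum_le_sum_of_subset_of_nonneg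
        · intro k hk
          rw [mem_image] at hk
          obtain ⟨b, hb, rfl⟩ := hk
          rw [mem_range, Nat.lt_succ_iff]
          apply Nat.floor_le_of_le
          exact (div_le_self (hx0 b hb) hL).trans (hxK b hb)
        · intro k _ _
          exact hu0 k
    _ = 1 + ∑ k ∈ Icc 1 K, (1 : ℝ) / k := by
        rw [Finset.range_eq_Ico, Finset.sum_eq_sum_Ico_succ_bot (Nat.succ_pos K)]
        have e1 : u 0 = 1 := by rw [hu]; simp
        rw [e1]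
        congr 1
        have e2 : Ico (0 + 1) (K + 1) = Icc 1 K := by
          ext k
          rw [mem_Ico, mem_Icc]
          omega
        rw [e2]
        apply sum_congr rfl
        intro k hk
        rw [mem_Icc] at hk
        rw [hu]
        dsimp only
        rw [if_neg (by omega)]

/-- the splitting of a divisor of `b ^ 2 - b0 ^ 2` -/
lemma lcm_dvd_sub {a a1 : ℕ} (ha : a ≠ 0) {b b' b0 : ℤ} (h : (a : ℤ) ∣ b ^ 2 - b0 ^ 2)
    (h' : (a : ℤ) ∣ b' ^ 2 - b0 ^ 2) (h1 : Int.gcd a (b - b0) = a1) (h1' : Int.gcd a (b' - b0) = a1) :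
    ((Nat.lcm a1 (a / a1) : ℕ) : ℤ) ∣ b - b' := by
  have hda : a1 ∣ a := by
    rw [← h1]
    exact_mod_cast Int.gcd_dvd_left (a : ℤ) (b - b0)
  obtain ⟨a2, ha2⟩ := hda
  have ha1p : 0 < a1 := Nat.pos_of_ne_zero (by rintro rfl; rw [zero_mul] at ha2; exact ha ha2)
  have hdiv : a / a1 = a2 := by rw [ha2, Nat.mul_div_cancel_left _ ha1p]
  rw [hdiv]
  have key : ∀ b : ℤ, (a : ℤ) ∣ b ^ 2 - b0 ^ 2 → Int.gcd a (b - b0) = a1 →
      (a1 : ℤ) ∣ b - b0 ∧ (a2 : ℤ) ∣ b + b0 := by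
    intro b hb hb2
    have h1 : (a1 : ℤ) ∣ b - b0 := by
      rw [← hb2]; exact Int.gcd_dvd_right _ _
    refine ⟨h1, ?_⟩
    have h2 : (a : ℤ) ∣ (b - b0) * (b + b0) := by
      have e : b ^ 2 - b0 ^ 2 = (b - b0) * (b + b0) := by ring
      rwa [e] at hb
    obtain ⟨c, hc⟩ := h1
    have h3 : (a1 : ℤ) * a2 ∣ a1 * (c * (b + b0)) := by
      have : ((a : ℕ) : ℤ) = (a1 : ℤ) * a2 := by rw [ha2]; push_cast; ring
      rw [← this]
      rw [hc] at h2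
      have e : (a1 : ℤ) * c * (b + b0) = a1 * (c * (b + b0)) := by ring
      rwa [e] at h2
    have h4 : (a2 : ℤ) ∣ c * (b + b0) :=
      Int.dvd_of_mul_dvd_mul_left (by exact_mod_cast ha1p.ne') h3
    have h5 : IsCoprime (a2 : ℤ) c := by
      rw [Int.isCoprime_iff_gcd_eq_one]
      have h6 : Int.gcd (a : ℤ) (b - b0) = a1 * Int.gcd a2 c := by
        rw [hc, ha2]; push_cast
        rw [Int.gcd_mul_left]; simp
      rw [hb2] at h6
      have : a1 * 1 = a1 * Int.gcd a2 c := by rw [mul_one]; exact h6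
      exact (Nat.eq_of_mul_eq_mul_left ha1p this).symm
    exact h5.dvd_of_dvd_mul_left h4
  have k1 := key b h h1
  have k2 := key b' h' h1'
  have h3 : (a1 : ℤ) ∣ b - b' := by
    have := dvd_sub k1.1 k2.1
    have e : b - b0 - (b' - b0) = b - b' := by ring
    rwa [e] at this
  have h4 : (a2 : ℤ) ∣ b - b' := by
    have := dvd_sub k1.2 k2.2
    have e : b + b0 - (b' + b0) = b - b' := by ring
    rwa [e] at this
  rw [Int.natCast_dvd] at h3 h4 ⊢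
  exact Nat.lcm_dvd h3 h4

/-- the part of `n` composed of the primes in `V` -/
noncomputable def QV (V : Finset Nat.Primes) (n : ℤ) : ℕ := ∏ p ∈ V, (p : ℕ) ^ padicValInt p n

lemma QV_pos (V : Finset Nat.Primes) (n : ℤ) : 0 < QV V n :=
  prod_pos fun p _ => pow_pos p.2.pos _

lemma sqV_eq (V : Finset Nat.Primes) (n : ℤ) : Q273.QP.sqV V n = Real.sqrt (QV V n) := by
  classical
  unfold Q273.QP.sqV QV
  induction V using Finset.induction_on with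
  | empty => simp
  | insert a s ha ih =>
    rw [prod_insert ha, prod_insert ha, ih]
    push_cast
    rw [Real.sqrt_mul (by positivity)]

lemma QV_dvd (V : Finset Nat.Primes) (n : ℤ) : (QV V n : ℤ) ∣ n := by
  classical
  unfold QV
  push_cast
  apply Finset.prod_dvd_of_coprime
  · intro p _ q _ hpq
    have h1 : Nat.Coprime (p : ℕ) (q : ℕ) := by
      rw [Nat.coprime_primes p.2 q.2]
      exact fun h => hpq (Subtype.ext h)
    exact IsCoprime.pow (Nat.isCoprime_iff_coprime.2 h1)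
  · intro p _
    have : Fact (p : ℕ).Prime := ⟨p.2⟩
    exact padicValInt_dvd n

lemma QV_factored (V : Finset Nat.Primes) (n : ℤ) :
    QV V n ∈ Nat.factoredNumbers (V.image fun p : Nat.Primes => (p : ℕ)) := by
  classical
  rw [Nat.mem_factoredNumbers']
  intro q hq hqd
  unfold QV at hqd
  obtain ⟨p, hp, h1⟩ := (hq.prime.dvd_finsetProd_iff _).1 hqd
  have h2 := hq.dvd_of_dvd_pow h1
  rw [Nat.prime_dvd_prime_iff_eq hq p.2] at h2
  rw [h2]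
  exact mem_image_of_mem _ hp

/-- the square root of the positive part of `m` -/
noncomputable def rt (m : ℤ) : ℝ := Real.sqrt (m : ℝ)

lemma rt_sq {b m : ℤ} : (|(b : ℝ)| - rt m) ^ 2 ≤ |((b ^ 2 - m : ℤ) : ℝ)| := by
  push_cast
  unfold rt
  rcases le_total (0 : ℝ) m with h | h
  · have h1 : Real.sqrt (m : ℝ) ^ 2 = m := Real.sq_sqrt h
    have h2 := Real.sqrt_nonneg (m : ℝ)
    obtain ⟨s, hs⟩ : ∃ s, s = Real.sqrt (m : ℝ) := ⟨_, rfl⟩
    rw [← hs] at h1 h2 ⊢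
    have h3 : (b : ℝ) ^ 2 - m = (|(b : ℝ)| - s) * (|(b : ℝ)| + s) := by
      rw [← h1, ← sq_abs (b : ℝ)]; ring
    have h4 := abs_nonneg (b : ℝ)
    rw [h3, abs_mul, abs_of_nonneg (by linarith : 0 ≤ |(b : ℝ)| + s), ← sq_abs (|(b : ℝ)| - s), pow_two]
    apply mul_le_mul_of_nonneg_left _ (abs_nonneg _)
    rw [abs_le]
    constructor <;> linarith
  · rw [Real.sqrt_eq_zero_of_nonpos h, sub_zero, sq_abs]
    refine le_trans ?_ (le_abs_self _)
    linarith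

lemma gcd_mem {Q : ℕ} (hQ : Q ≠ 0) {s : Finset ℕ} {Y : ℕ} (h : Q ∈ Nat.factoredNumbers s) (hY : Q ≤ Y) (c : ℤ) :
    Int.gcd Q c ∈ (Icc 1 Y).filter (· ∈ Nat.factoredNumbers s) := by
  have h1 : Int.gcd Q c ∣ Q := by exact_mod_cast Int.gcd_dvd_left (Q : ℤ) c
  have hpos : 0 < Q := Nat.pos_of_ne_zero hQ
  rw [mem_filter, mem_Icc]
  exact ⟨⟨Nat.pos_of_dvd_of_pos h1 hpos, (Nat.le_of_dvd hpos h1).trans hY⟩,
    Nat.mem_factoredNumbers_of_dvd h h1⟩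

lemma main_bound (V : Finset Nat.Primes) (X : ℕ) (m : ℤ) (hX : 1 ≤ X) (hm : |m| ≤ 4 * (X : ℤ) ^ 2)
    (S : Finset ℕ)
    (hS : S = (Icc 1 (5 * X ^ 2)).filter (· ∈ Nat.factoredNumbers (V.image fun p : Nat.Primes => (p : ℕ)))) :
    ∑ b ∈ (Finset.Icc (-(X : ℤ)) X).filter (fun b => b ^ 2 ≠ m),
      Q273.QP.sqV V (b ^ 2 - m) / Real.sqrt |((b ^ 2 - m : ℤ) : ℝ)| ≤
      (S.card : ℝ) * S.card * 4 * (1 + ∑ k ∈ Icc 1 (3 * X), (1 : ℝ) / k) := by
  classical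
  obtain ⟨T, hT⟩ : ∃ T : Finset ℤ, T = (Finset.Icc (-(X : ℤ)) X).filter (fun b => b ^ 2 ≠ m) := ⟨_, rfl⟩
  rw [← hT]
  have hTm : ∀ b : ℤ, b ∈ T → |b| ≤ X ∧ b ^ 2 ≠ m := by
    intro b hb
    rw [hT, mem_filter, mem_Icc] at hb
    exact ⟨abs_le.2 hb.1, hb.2⟩
  obtain ⟨Q, hQ⟩ : ∃ Q : ℤ → ℕ, Q = fun b => QV V (b ^ 2 - m) := ⟨_, rfl⟩
  have hQpos : ∀ b, 0 < Q b := fun b => by rw [hQ]; exact QV_pos _ _
  have hQdvd : ∀ b, (Q b : ℤ) ∣ b ^ 2 - m := fun b => by rw [hQ]; exact QV_dvd _ _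
  have hQle : ∀ b ∈ T, (Q b : ℤ) ≤ |b ^ 2 - m| := by
    intro b hb
    have hne : b ^ 2 - m ≠ 0 := sub_ne_zero.2 (hTm b hb).2
    apply Int.le_of_dvd (abs_pos.2 hne)
    exact (dvd_abs _ _).2 (hQdvd b)
  have hQ5 : ∀ b ∈ T, Q b ≤ 5 * X ^ 2 := by
    intro b hb
    have h1 := hQle b hb
    have h2 : |b ^ 2 - m| ≤ 5 * (X : ℤ) ^ 2 := by
      have h3 : b ^ 2 ≤ (X : ℤ) ^ 2 := by
        rw [← sq_abs]
        exact pow_le_pow_left₀ (abs_nonneg _) (hTm b hb).1 2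
      have h4 := abs_le.1 hm
      rw [abs_le]
      constructor <;> nlinarith [sq_nonneg b]
    exact_mod_cast h1.trans h2
  -- representatives
  obtain ⟨b0, hb0⟩ : ∃ b0 : ℕ → ℤ, ∀ b ∈ T, Q (b0 (Q b)) = Q b := by
    refine ⟨fun q => if h : ∃ b ∈ T, Q b = q then h.choose else 0, fun b hb => ?_⟩
    have h : ∃ b' ∈ T, Q b' = Q b := ⟨b, hb, rfl⟩
    dsimp only
    rw [dif_pos h]
    exact h.choose_spec.2
  obtain ⟨g, hg⟩ : ∃ g : ℤ → ℕ × ℕ × Bool × Bool, g = fun b =>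
      (Q b, Int.gcd (Q b) (b - b0 (Q b)), decide (0 ≤ b), decide (rt m ≤ |(b : ℝ)|)) := ⟨_, rfl⟩
  obtain ⟨t, ht⟩ : ∃ t : ℤ → ℝ, t = fun b =>
      Q273.QP.sqV V (b ^ 2 - m) / Real.sqrt |((b ^ 2 - m : ℤ) : ℝ)| := ⟨_, rfl⟩
  have hmaps : ∀ b ∈ T, g b ∈ S ×ˢ (S ×ˢ ((univ : Finset Bool) ×ˢ (univ : Finset Bool))) := by
    intro b hb
    have hf : Q b ∈ Nat.factoredNumbers (V.image fun p : Nat.Primes => (p : ℕ)) := by
      rw [hQ]; exact QV_factored _ _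
    rw [hg, mem_product, mem_product]
    refine ⟨?_, ?_, mem_product.2 ⟨mem_univ _, mem_univ _⟩⟩
    · rw [hS, mem_filter, mem_Icc]
      exact ⟨⟨hQpos b, hQ5 b hb⟩, hf⟩
    · rw [hS]
      exact gcd_mem (hQpos b).ne' hf (hQ5 b hb) _
  have hsum : ∑ b ∈ T, t b = ∑ j ∈ S ×ˢ (S ×ˢ ((univ : Finset Bool) ×ˢ (univ : Finset Bool))),
      ∑ b ∈ T.filter (fun b => g b = j), t b := (sum_fiberwise_of_maps_to hmaps t).symm
  have htdef : ∑ b ∈ T, Q273.QP.sqV V (b ^ 2 - m) / Real.sqrt |((b ^ 2 - m : ℤ) : ℝ)| = ∑ b ∈ T, t b := by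
    rw [ht]
  rw [htdef, hsum]
  have hcard : ((S ×ˢ (S ×ˢ ((univ : Finset Bool) ×ˢ (univ : Finset Bool)))).card : ℝ) =
      (S.card : ℝ) * S.card * 4 := by
    rw [card_product, card_product, card_product]
    simp
    ring
  rw [← hcard, ← nsmul_eq_mul]
  apply sum_le_card_nsmul
  rintro ⟨q, q1, σ, τ⟩ -
  obtain ⟨A, hA⟩ : ∃ A : Finset ℤ, A = T.filter (fun b => g b = (q, q1, σ, τ)) := ⟨_, rfl⟩
  rw [← hA]
  have hAm : ∀ b ∈ A, b ∈ T ∧ Q b = q ∧ Int.gcd q (b - b0 q) = q1 ∧ decide (0 ≤ b) = σ ∧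
      decide (rt m ≤ |(b : ℝ)|) = τ := by
    intro b hb
    rw [hA, mem_filter] at hb
    obtain ⟨h1, h2⟩ := hb
    rw [hg] at h2
    simp only [Prod.mk.injEq] at h2
    obtain ⟨h3, h4, h5, h6⟩ := h2
    rw [h3] at h4
    exact ⟨h1, h3, h4, h5, h6⟩
  rcases A.eq_empty_or_nonempty with hAe | ⟨bb, hbb⟩
  · rw [hAe, sum_empty]
    positivity
  obtain ⟨-, hbq, hbg, -, -⟩ := hAm bb hbb
  have hq0 : q ≠ 0 := by
    rw [← hbq]; exact (hQpos bb).ne'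
  have hqpos : 0 < q := Nat.pos_of_ne_zero hq0
  have hq1 : q1 ∣ q := by
    rw [← hbg]
    exact_mod_cast Int.gcd_dvd_left (q : ℤ) (bb - b0 q)
  have hq1pos : 0 < q1 := Nat.pos_of_dvd_of_pos hq1 hqpos
  obtain ⟨L, hL⟩ : ∃ L : ℕ, L = Nat.lcm q1 (q / q1) := ⟨_, rfl⟩
  have hq2pos : 0 < q / q1 := Nat.div_pos (Nat.le_of_dvd hqpos hq1) hq1pos
  have hLpos : 0 < L := by rw [hL]; exact Nat.lcm_pos hq1pos hq2pos
  have hqL : q ≤ L ^ 2 := by
    have h1 : q1 ≤ L := Nat.le_of_dvd hLpos (by rw [hL]; exact Nat.dvd_lcm_left _ _)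
    have h2 : q / q1 ≤ L := Nat.le_of_dvd hLpos (by rw [hL]; exact Nat.dvd_lcm_right _ _)
    calc q = q1 * (q / q1) := (Nat.mul_div_cancel' hq1).symm
      _ ≤ L * L := Nat.mul_le_mul h1 h2
      _ = L ^ 2 := (pow_two L).symm
  have hsq : Real.sqrt q ≤ L := by
    rw [Real.sqrt_le_left (Nat.cast_nonneg _)]
    exact_mod_cast hqL
  have hLR : (1 : ℝ) ≤ L := by exact_mod_cast hLpos
  have hdvd : ∀ b ∈ A, ∀ b' ∈ A, (L : ℤ) ∣ b - b' := by
    intro b hb b' hb'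
    obtain ⟨h1, h2, h3, -, -⟩ := hAm b hb
    obtain ⟨h1', h2', h3', -, -⟩ := hAm b' hb'
    have h0 : (q : ℤ) ∣ (b0 q) ^ 2 - m := by
      have e1 := hQdvd (b0 q)
      have e2 : Q (b0 q) = q := by
        have := hb0 b h1
        rw [h2] at this
        exact this
      rwa [e2] at e1
    rw [hL]
    refine lcm_dvd_sub hq0 (b0 := b0 q) ?_ ?_ h3 h3'
    · have e1 := dvd_sub (hQdvd b) (by rw [h2]; exact h0 : (Q b : ℤ) ∣ (b0 q) ^ 2 - m)
      rw [h2] at e1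
      have e2 : b ^ 2 - m - (b0 q ^ 2 - m) = b ^ 2 - b0 q ^ 2 := by ring
      rwa [e2] at e1
    · have e1 := dvd_sub (hQdvd b') (by rw [h2']; exact h0 : (Q b' : ℤ) ∣ (b0 q) ^ 2 - m)
      rw [h2'] at e1
      have e2 : b' ^ 2 - m - (b0 q ^ 2 - m) = b' ^ 2 - b0 q ^ 2 := by ring
      rwa [e2] at e1
  have htq : ∀ b ∈ A, t b = Real.sqrt q / Real.sqrt |((b ^ 2 - m : ℤ) : ℝ)| := by
    intro b hb
    obtain ⟨h1, h2, -⟩ := hAm b hb
    rw [ht]
    dsimp only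
    rw [sqV_eq]
    have : QV V (b ^ 2 - m) = q := by rw [← h2, hQ]
    rw [this]
  have hpos : ∀ b ∈ A, 0 < Real.sqrt |((b ^ 2 - m : ℤ) : ℝ)| := by
    intro b hb
    apply Real.sqrt_pos.2
    apply abs_pos.2
    have := sub_ne_zero.2 (hTm b (hAm b hb).1).2
    exact_mod_cast this
  refine sum_sep A (fun b => |(|(b : ℝ)| - rt m)|) t L (3 * X) hLR ?_ ?_ ?_ ?_ ?_
  · intro b _
    exact abs_nonneg _
  · intro b hb
    have h1 : |(b : ℝ)| ≤ X := by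
      have := (hTm b (hAm b hb).1).1
      exact_mod_cast this
    have h2 : rt m ≤ 2 * X := by
      unfold rt
      rw [Real.sqrt_le_left (by positivity)]
      have h3 : m ≤ 4 * (X : ℤ) ^ 2 := (le_abs_self m).trans hm
      have h4 : (m : ℝ) ≤ 4 * (X : ℝ) ^ 2 := by exact_mod_cast h3
      linarith
    have h3 : 0 ≤ rt m := Real.sqrt_nonneg _
    have h4 := abs_nonneg (b : ℝ)
    have h5 : (0 : ℝ) ≤ X := Nat.cast_nonneg X
    push_cast
    rw [abs_le]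
    constructor <;> linarith
  · intro b hb
    rw [htq b hb, div_le_one (hpos b hb)]
    apply Real.sqrt_le_sqrt
    obtain ⟨h1, h2, -⟩ := hAm b hb
    have h3 := hQle b h1
    rw [h2] at h3
    exact_mod_cast h3
  · intro b hb
    rw [htq b hb, div_mul_eq_mul_div, div_le_iff₀ (hpos b hb)]
    have h1 : |(|(b : ℝ)| - rt m)| ≤ Real.sqrt |((b ^ 2 - m : ℤ) : ℝ)| := by
      apply Real.le_sqrt_of_sq_le
      rw [sq_abs]
      exact rt_sq
    exact mul_le_mul hsq h1 (abs_nonneg _) (by linarith)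
  · intro b hb b' hb' hne
    obtain ⟨-, -, -, h4, h5⟩ := hAm b hb
    obtain ⟨-, -, -, h4', h5'⟩ := hAm b' hb'
    have h6 : (L : ℝ) ≤ |((b - b' : ℤ) : ℝ)| := by
      have h7 : (L : ℤ) ≤ |b - b'| := Int.le_of_dvd (abs_pos.2 (sub_ne_zero.2 hne))
        ((dvd_abs _ _).2 (hdvd b hb b' hb'))
      exact_mod_cast h7
    have h7 : |(|(|(b : ℝ)| - rt m)| - |(|(b' : ℝ)| - rt m)|)| = |((b - b' : ℤ) : ℝ)| := by
      have h8 : (0 ≤ b ↔ 0 ≤ b') := by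
        rw [← decide_eq_decide, h4, h4']
      have h9 : (rt m ≤ |(b : ℝ)| ↔ rt m ≤ |(b' : ℝ)|) := by
        rw [← decide_eq_decide, h5, h5']
      have e1 : |(|(b : ℝ)| - |(b' : ℝ)|)| = |((b - b' : ℤ) : ℝ)| := by
        push_cast
        rcases le_or_gt 0 b with h | h
        · have h' := h8.1 h
          rw [abs_of_nonneg (by exact_mod_cast h : (0 : ℝ) ≤ b), abs_of_nonneg (by exact_mod_cast h' : (0 : ℝ) ≤ b')]
        · have h' : b' < 0 := by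
            by_contra hc
            exact absurd (h8.2 (not_lt.1 hc)) (not_le.2 h)
          rw [abs_of_neg (by exact_mod_cast h : (b : ℝ) < 0), abs_of_neg (by exact_mod_cast h' : (b' : ℝ) < 0)]
          rw [← abs_neg]
          congr 1
          ring
      rw [← e1]
      rcases le_or_gt (rt m) |(b : ℝ)| with h | h
      · have h' := h9.1 h
        rw [abs_of_nonneg (by linarith : 0 ≤ |(b : ℝ)| - rt m), abs_of_nonneg (by linarith : 0 ≤ |(b' : ℝ)| - rt m)]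
        congr 1
        ring
      · have h' : |(b' : ℝ)| < rt m := by
          by_contra hc
          exact absurd (h9.2 (not_lt.1 hc)) (not_le.2 h)
        rw [abs_of_neg (by linarith : |(b : ℝ)| - rt m < 0), abs_of_neg (by linarith : |(b' : ℝ)| - rt m < 0)]
        rw [← abs_neg]
        congr 1
        ring
    rw [h7]
    exact h6

/-- job SUMB -/
theorem sumb : Q273.QP.S_SUMB := by
  intro V ε hε
  obtain ⟨C, hC, hcard⟩ := card_smooth (V.image fun p : Nat.Primes => (p : ℕ)) (ε / 8) (by positivity)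
  -- the harmonic sum
  obtain ⟨D, hD⟩ : ∃ D : ℝ, D = 2 + (3 : ℝ) ^ (ε / 2) / (ε / 2) := ⟨_, rfl⟩
  have hD0 : 0 < D := by rw [hD]; positivity
  refine ⟨(C * 5 ^ (ε / 8)) * (C * 5 ^ (ε / 8)) * 4 * D, by positivity, fun X m hX hm => ?_⟩
  have hX0 : (0 : ℝ) < X := by exact_mod_cast hX
  have hX1 : (1 : ℝ) ≤ X := by exact_mod_cast hX
  have h1 := main_bound V X m hX hm _ rfl
  have h2 := hcard (5 * X ^ 2) (by nlinarith)
  have h3 : (((5 * X ^ 2 : ℕ) : ℝ)) ^ (ε / 8) = 5 ^ (ε / 8) * (X : ℝ) ^ (ε / 4) := by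
    push_cast
    rw [Real.mul_rpow (by norm_num) (by positivity), ← Real.rpow_natCast (X : ℝ) 2, ← Real.rpow_mul hX0.le]
    congr 2
    push_cast
    ring
  rw [h3] at h2
  have h4 : 1 + ∑ k ∈ Icc 1 (3 * X), (1 : ℝ) / k ≤ D * (X : ℝ) ^ (ε / 2) := by
    have e1 : ∑ k ∈ Icc 1 (3 * X), (1 : ℝ) / k ≤ 1 + Real.log ((3 * X : ℕ) : ℝ) := by
      have := harmonic_le_one_add_log (3 * X)
      rw [harmonic_eq_sum_Icc] at this
      push_cast at this ⊢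
      simpa [one_div] using this
    have e2 : Real.log ((3 * X : ℕ) : ℝ) ≤ ((3 * X : ℕ) : ℝ) ^ (ε / 2) / (ε / 2) :=
      Real.log_le_rpow_div (Nat.cast_nonneg _) (by positivity)
    have e3 : ((3 * X : ℕ) : ℝ) ^ (ε / 2) = 3 ^ (ε / 2) * (X : ℝ) ^ (ε / 2) := by
      push_cast
      rw [Real.mul_rpow (by norm_num) hX0.le]
    have e4 : 1 ≤ (X : ℝ) ^ (ε / 2) := Real.one_le_rpow hX1 (by positivity)
    rw [e3] at e2
    rw [hD]
    calc 1 + ∑ k ∈ Icc 1 (3 * X), (1 : ℝ) / k ≤ 2 + 3 ^ (ε / 2) * (X : ℝ) ^ (ε / 2) / (ε / 2) := by linarith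
      _ ≤ 2 * (X : ℝ) ^ (ε / 2) + 3 ^ (ε / 2) * (X : ℝ) ^ (ε / 2) / (ε / 2) := by linarith
      _ = (2 + (3 : ℝ) ^ (ε / 2) / (ε / 2)) * (X : ℝ) ^ (ε / 2) := by ring
  refine h1.trans ?_
  obtain ⟨N, hN⟩ : ∃ N : ℝ, N = ((((Icc 1 (5 * X ^ 2)).filter (· ∈ Nat.factoredNumbers
      (V.image fun p : Nat.Primes => (p : ℕ)))).card : ℕ) : ℝ) := ⟨_, rfl⟩
  rw [← hN] at h2 ⊢
  have hN0 : 0 ≤ N := by rw [hN]; exact Nat.cast_nonneg _
  have hH0 : 0 ≤ 1 + ∑ k ∈ Icc 1 (3 * X), (1 : ℝ) / k := by positivity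
  calc N * N * 4 * (1 + ∑ k ∈ Icc 1 (3 * X), (1 : ℝ) / k)
      ≤ (C * (5 ^ (ε / 8) * (X : ℝ) ^ (ε / 4))) * (C * (5 ^ (ε / 8) * (X : ℝ) ^ (ε / 4))) * 4 *
        (D * (X : ℝ) ^ (ε / 2)) := by gcongr
    _ = (C * 5 ^ (ε / 8)) * (C * 5 ^ (ε / 8)) * 4 * D * ((X : ℝ) ^ (ε / 4) * (X : ℝ) ^ (ε / 4) *
        (X : ℝ) ^ (ε / 2)) := by ring
    _ = (C * 5 ^ (ε / 8)) * (C * 5 ^ (ε / 8)) * 4 * D * (X : ℝ) ^ ε := by
        rw [← Real.rpow_add hX0, ← Real.rpow_add hX0]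
        congr 2
        ring

end Pool.Agent.Q38.QPS
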